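import Mathlib
import Pool.Agent.Q217.TT.Measure

/-!
# MP_301213_nt: Hoffman words with a common first part have no relations of small height

Let `U` be a finite set of words in positive integers and `p` a nonempty word whose letters are at least two. The numbers
`ζ(p u)`, `u ∈ U` (the letters of `p` belong to the largest summation variables), satisfy no linear relation with integer
coefficients, not all zero, of absolute value at most `κ · length p`, where `κ > 0` depends only on `U`, not on `p`; and the
value of such a linear form is at least `κ ζ(p, 2, ..., 2)` in absolute value, with `M = M(U)` letters `2`. If `U`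
is the set of the words of weight `W` in the letters `2`, `3` and `p` is a word in `2`, `3`, the `ζ(p u)` are Hoffman
elements of weight `W + wt p`, and Hoffman's conjecture says that they satisfy no relation at all. So for fixed `W` and
fixed height there is no such relation as soon as the weight is large, for all `p`.

The proof is elementary. `ζ(p u)` is the sum of the values of the truncated harmonic sum of `u` with positive weights which
depend on `p`. An inequality of Newton type for words (`newton`: moving the letters by one place) shows that for long `p` the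
weights decrease so fast that the first nonzero value of the combination of the harmonic sums decides. The harmonic sums
are linearly independent over `ℚ` (starting library), so that one of the first `M` values is not zero, `M = M(U)`.
-/

set_option autoImplicit false

namespace Pool.Agent.Results.MP_301213_nt.CommonPrefix

/-- the multiple zeta value of the list `l`, the first entry belongs to the largest summation variable, in the words of
`S16469` -/
noncomputable def mzv (l : List ℕ) : ℝ :=
  ∑' m : {m : Fin l.length → ℕ // StrictAnti m ∧ ∀ i, 0 < m i}, ∏ i, ((m.1 i : ℝ) ^ (l.get i))⁻¹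

/-- the list of natural numbers of a list of positive integers -/
def toNat (u : List ℕ+) : List ℕ := List.map (fun x : ℕ+ => (x : ℕ)) u

lemma mzv_eq {l : List ℕ} (hl : Pool.Agent.H447R2.MZ.Adm l) : mzv l = Pool.Agent.H447R2.MZ.val l := by
  have h1 := Pool.Agent.H447R2.MZ.hasSum_val l.length l.get (by rw [List.ofFn_get]; exact hl)
  rw [List.ofFn_get] at h1
  exact h1.tsum_eq

lemma adm {p : List ℕ} (hp0 : p ≠ []) (hp : ∀ x ∈ p, 2 ≤ x) (u : List ℕ+) :
    Pool.Agent.H447R2.MZ.Adm (p ++ toNat u) := by
  obtain ⟨q, s, rfl⟩ : ∃ q s, p = q ++ [s] := by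
    rcases List.eq_nil_or_concat p with rfl | ⟨q, s, rfl⟩
    · exact absurd rfl hp0
    · exact ⟨q, s, List.concat_eq_append⟩
  have h1 := Pool.Agent.Q217.TT.adm_app q (fun x hx => hp x (by simp [hx])) s (hp s (by simp)) u
  rw [List.append_assoc, List.singleton_append]
  exact h1

lemma adm_two {p : List ℕ} (hp0 : p ≠ []) (hp : ∀ x ∈ p, 2 ≤ x) (M : ℕ) :
    Pool.Agent.H447R2.MZ.Adm (p ++ List.replicate M 2) := by
  have h := adm hp0 hp (List.replicate M 2)
  rw [toNat, List.map_replicate] at h
  exact h

lemma mzv_pos {p : List ℕ} (hp0 : p ≠ []) (hp : ∀ x ∈ p, 2 ≤ x) (M : ℕ) :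
    0 < mzv (p ++ List.replicate M 2) := by
  rw [mzv_eq (adm_two hp0 hp M)]
  exact lt_of_lt_of_le (Pool.Agent.Q217.TT.H_pos_twos M p) (Pool.Agent.H447R2.MZ.H_le_val _ (adm_two hp0 hp M) _)

/-- **Theorem.** For every finite set `U` of words in positive integers there are `κ > 0` and `M` such that for all nonempty
words `p` with letters at least two and all integers `c_u`, `u ∈ U`, not all zero, of absolute value at most
`κ · length p`: `|∑ c_u ζ(p u)| ≥ κ ζ(p, 2, ..., 2) > 0`, with `M` letters `2`. In particular the numbers `ζ(p u)`,
`u ∈ U`, satisfy no nontrivial linear relation with integer coefficients of absolute value at most `κ · length p`. -/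
theorem result (U : Finset (List ℕ+)) : ∃ κ : ℝ, 0 < κ ∧ ∃ M : ℕ, ∀ p : List ℕ, p ≠ [] → (∀ s ∈ p, 2 ≤ s) →
    ∀ c : List ℕ+ → ℤ, (∀ u ∈ U, |(c u : ℝ)| ≤ κ * p.length) → (∃ u ∈ U, c u ≠ 0) →
      0 < mzv (p ++ List.replicate M 2) ∧
        κ * mzv (p ++ List.replicate M 2) ≤ |∑ u ∈ U, (c u : ℝ) * mzv (p ++ toNat u)| := by
  obtain ⟨κ, hκ, M, h⟩ := Pool.Agent.Q217.TT.measure' U
  refine ⟨κ, hκ, M, fun p hp0 hp c hc hne => ⟨mzv_pos hp0 hp M, ?_⟩⟩
  have h1 := h p hp0 hp c hc hne
  rw [mzv_eq (adm_two hp0 hp M)]
  refine h1.trans (le_of_eq ?_)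
  congr 1
  refine Finset.sum_congr rfl fun u _ => ?_
  rw [mzv_eq (adm hp0 hp u)]
  rfl

end Pool.Agent.Results.MP_301213_nt.CommonPrefix
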