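import Pool.Agent.Q263.ZO.Hoffman

/-!
# Hoffman's conjecture can be tested on words with few letters `3`

Let `C k d` be the set of the words of weight `k` in the letters `2`, `3` with at most `d` letters
`3`, and `H_{k,d}` the family of the Hoffman elements `ζ(w)`, `w ∈ C k d`; `Indep k d` says that
`H_{k,d}` is linearly independent over `ℚ`. So Hoffman's conjecture says that `Indep k k` holds for
all `k`. We use Brown's theorem in the following form (`Motivic`): the Hoffman elements are the
images of linearly independent elements `e w` of an integral domain under a homomorphism, the product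
of `e u` and `e v` is a combination of the `e w` of the right weight whose number of letters `3` is
at most the sum of those of `u` and `v`, and the `ζ(w)` span the space of all multiple zeta values
of their weight. Theorem:

1. If `H_{k,d}` is linearly dependent, then for all `k'`, `d'` the family `H_{k+k',d+d'}` satisfies
   at least `#C(k',d')` linearly independent relations.
2. If `H_{K,D}` is independent, then `H_{k,d}` is independent for all `k ≤ K`, `d ≤ D` with
   `K - k ≠ 1` such that `K - k` is even or `d < D`.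
3. Let `g` be any function with `g K → ∞` (for instance the integral part of `log log K`). Hoffman's
   conjecture is true if and only if `H_{K,g(K)}` is independent for infinitely many `K`.
4. For every level `D`: if `H_{K,D}` is independent for infinitely many even `K`, then for all even
   `K`, and `H_{k,d}` is independent for all `k` and all `d < D`; the same holds with odd in place of
   even.

`Conjecture` is the statement of `S16469`.
-/

set_option autoImplicit false

open Module Filter

namespace Pool.Agent.Results.MP_301213_nt.FewThrees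

open Pool.Agent.Q263.ZO.Hoff

/-- Hoffman's conjecture, in the words of `S16469` -/
def Conjecture : Prop :=
  ∀ k : ℕ,
    LinearIndependent ℚ
      (fun l : {l : List ℕ // (∀ a ∈ l, a = 2 ∨ a = 3) ∧ l.sum = k} =>
        ∑' m : {m : Fin l.1.length → ℕ // StrictAnti m ∧ ∀ i, 0 < m i},
          ∏ i, ((m.1 i : ℝ) ^ (l.1.get i))⁻¹) ∧
    Submodule.span ℚ
      (Set.range
        (fun l : {l : List ℕ // (∀ a ∈ l, a = 2 ∨ a = 3) ∧ l.sum = k} =>
          ∑' m : {m : Fin l.1.length → ℕ // StrictAnti m ∧ ∀ i, 0 < m i},
            ∏ i, ((m.1 i : ℝ) ^ (l.1.get i))⁻¹)) =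
    Submodule.span ℚ
      {x : ℝ | ∃ s : List ℕ, (∀ a ∈ s, 1 ≤ a) ∧ (∀ a ∈ s.head?, 2 ≤ a) ∧ s.sum = k ∧
        x = ∑' m : {m : Fin s.length → ℕ // StrictAnti m ∧ ∀ i, 0 < m i},
              ∏ i, ((m.1 i : ℝ) ^ (s.get i))⁻¹}

theorem mem_C (k : ℕ) (l : List ℕ) : l ∈ C k k ↔ (∀ a ∈ l, a = 2 ∨ a = 3) ∧ l.sum = k := by
  constructor
  · exact fun h => ⟨h.1, h.2.1⟩
  · intro h
    exact C_top k l.length ⟨h.1, h.2, List.count_le_length⟩

theorem conjecture_iff (M : Motivic) : Conjecture ↔ ∀ k, Indep k k := by
  constructor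
  · intro h k
    have h1 := (h k).1.comp (fun w : C k k =>
      (⟨w, (mem_C k w).1 w.2⟩ : {l : List ℕ // (∀ a ∈ l, a = 2 ∨ a = 3) ∧ l.sum = k}))
      (fun a b hab => by
        have h : (a : List ℕ) = b := congrArg
          (fun t : {l : List ℕ // (∀ a ∈ l, a = 2 ∨ a = 3) ∧ l.sum = k} => (t : List ℕ)) hab
        exact Subtype.ext h)
    exact h1
  · intro h k
    refine ⟨?_, ?_⟩
    · have h1 := (h k).comp (fun w : {l : List ℕ // (∀ a ∈ l, a = 2 ∨ a = 3) ∧ l.sum = k} =>
        (⟨w, (mem_C k w).2 w.2⟩ : C k k))
        (fun a b hab => by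
          have h : (a : List ℕ) = b := congrArg (fun t : C k k => (t : List ℕ)) hab
          exact Subtype.ext h)
      exact h1
    · have h1 := M.span k
      have e : zeta '' C k k = Set.range
          (fun l : {l : List ℕ // (∀ a ∈ l, a = 2 ∨ a = 3) ∧ l.sum = k} => zeta l) := by
        ext x
        constructor
        · rintro ⟨w, hw, rfl⟩
          exact ⟨⟨w, (mem_C k w).1 hw⟩, rfl⟩
        · rintro ⟨w, rfl⟩
          exact ⟨w, (mem_C k w).2 w.2, rfl⟩
      rw [e] at h1
      exact h1

theorem result (M : Motivic) :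
    (∀ k d, ¬ Indep k d → ∀ k' d',
      finrank ℚ (Submodule.span ℚ (zeta '' C (k + k') (d + d'))) + (C k' d').ncard ≤
        (C (k + k') (d + d')).ncard) ∧
    (∀ K D, Indep K D → ∀ k d, k ≤ K → d ≤ D → K - k ≠ 1 → (Even (K - k) ∨ d < D) → Indep k d) ∧
    (∀ g : ℕ → ℕ, Tendsto g atTop atTop → (Conjecture ↔ ∃ᶠ K in atTop, Indep K (g K))) ∧
    (∀ D, (∃ᶠ K in atTop, Even K ∧ Indep K D) →
      (∀ k, Even k → Indep k D) ∧ ∀ k d, d < D → Indep k d) ∧
    (∀ D, (∃ᶠ K in atTop, Odd K ∧ Indep K D) →
      (∀ k, Odd k → Indep k D) ∧ ∀ k d, d < D → Indep k d) := by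
  refine ⟨fun k d h k' d' => M.step k d k' d' h, fun K D h k d hk hd h1 h2 => M.down K D k d h hk hd h1 h2,
    fun g hg => ?_, M.level_even, M.level_odd⟩
  rw [conjecture_iff M]
  exact M.iff_function g hg

end Pool.Agent.Results.MP_301213_nt.FewThrees
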